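import Pool.Agent.X67.GP.Sub

set_option autoImplicit false

/-!
# Record gaps around polynomial values at a point of a geometric progression
-/

namespace Pool.Agent.X67.GP

open Finset Polynomial Filter
open Pool.Agent.X164.MP
open Pool.Agent.H256R2.SC (ff)

/-- the geometric progression `c, c θ, …, c θ ^ (M - 1)` -/
noncomputable def gp {p : ℕ} (c θ : ZMod p) (M : ℕ) : Finset (ZMod p) :=
  (range M).image fun l => c * θ ^ l

theorem card_gp {p : ℕ} [Fact p.Prime] {c θ : ZMod p} (hc : c ≠ 0) {M : ℕ} (hM : M ≤ orderOf θ) :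
    (gp c θ M).card = M := by
  unfold gp
  rw [card_image_of_injOn, card_range]
  intro i hi j hj h
  rw [coe_range, Set.mem_Iio] at hi hj
  exact pow_injOn_Iio_orderOf (show i < orderOf θ by omega) (show j < orderOf θ by omega)
    (mul_left_cancel₀ hc h)

theorem gp_sdiff {p : ℕ} (c θ : ZMod p) (M k : ℕ) :
    (gp c θ M \ (gp c θ M).image (fun x => θ ^ k * x)).card ≤ k := by
  calc (gp c θ M \ (gp c θ M).image (fun x => θ ^ k * x)).card ≤ (gp c θ k).card := by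
        refine card_le_card ?_
        intro x hx
        obtain ⟨h1, h2⟩ := Finset.mem_sdiff.1 hx
        unfold gp at h1 h2 ⊢
        obtain ⟨l, hl, rfl⟩ := mem_image.1 h1
        rw [mem_range] at hl
        by_cases hlk : l < k
        · exact mem_image.2 ⟨l, mem_range.2 hlk, rfl⟩
        · exfalso
          apply h2
          refine mem_image.2 ⟨c * θ ^ (l - k), mem_image.2 ⟨l - k, mem_range.2 (by omega), rfl⟩, ?_⟩
          have : θ ^ l = θ ^ k * θ ^ (l - k) := by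
            rw [← pow_add]
            congr 1
            omega
          rw [this]
          ring
    _ ≤ k := by
        unfold gp
        exact card_image_le.trans (le_of_eq (card_range k))

/-- **geometric progressions** -/
theorem gp_gaps (r k : ℕ) (hr : 1 ≤ r) (ε : ℝ) (hε : 0 < ε) : ∃ κ : ℝ, 0 < κ ∧ ∃ p₀ : ℕ,
    ∀ (p : ℕ) [Fact p.Prime], p₀ ≤ p → ∀ (θ c : ZMod p) (M : ℕ) (F : Fin r → (ZMod p)[X]),
      θ ≠ 0 → c ≠ 0 → M ≤ orderOf θ → (p : ℝ) ^ (1 / 2 + ε) ≤ M →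
      (∀ j, (F j).natDegree ≤ k) →
      (∀ h : Fin r → ZMod p, h ≠ 0 → 1 ≤ (∑ j, C (h j) * F j).natDegree) →
      ∃ l : ℕ, l < M ∧ ∀ j, ∀ q : ℕ, q.Prime →
        κ * ff p < |(q : ℝ) - (((F j).eval (c * θ ^ l)).val : ℝ)| := by
  obtain ⟨κ, hκ, p₀, h⟩ := almost_inv_gaps r k hr (ε / 2) (by positivity)
  have ev : ∀ᶠ p : ℕ in atTop, (2 : ℝ) ≤ (p : ℝ) ^ ε :=
    ((tendsto_rpow_atTop hε).comp tendsto_natCast_atTop_atTop).eventually_ge_atTop _
  obtain ⟨p₁, hp₁⟩ := eventually_atTop.1 ev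
  refine ⟨κ, hκ, max p₀ p₁, ?_⟩
  intro p _ hp θ c M F hθ hc hM hMp hF hlin
  have hpp : p.Prime := Fact.out
  have hp0 : (0 : ℝ) < p := by exact_mod_cast hpp.pos
  have hp1 : (1 : ℝ) ≤ p := by exact_mod_cast hpp.one_lt.le
  have h2 := hp₁ p ((le_max_right _ _).trans hp)
  set K : ℕ := ⌊(M : ℝ) * (p : ℝ) ^ (-(ε / 2))⌋₊ with hK
  have hy0 : 0 ≤ (M : ℝ) * (p : ℝ) ^ (-(ε / 2)) := by positivity
  have hKle : (K : ℝ) ≤ (M : ℝ) * (p : ℝ) ^ (-(ε / 2)) := Nat.floor_le hy0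
  have hpe : (p : ℝ) ^ (-(ε / 2)) ≤ 1 := Real.rpow_le_one_of_one_le_of_nonpos hp1 (by linarith)
  have hKM : K ≤ M := by
    have : (K : ℝ) ≤ M := hKle.trans (mul_le_of_le_one_right (Nat.cast_nonneg _) hpe)
    exact_mod_cast this
  have hy1 : 1 ≤ (M : ℝ) * (p : ℝ) ^ (-(ε / 2)) := by
    calc (1 : ℝ) ≤ (p : ℝ) ^ (1 / 2 + ε + -(ε / 2)) := Real.one_le_rpow hp1 (by linarith)
      _ = (p : ℝ) ^ (1 / 2 + ε) * (p : ℝ) ^ (-(ε / 2)) := Real.rpow_add hp0 _ _
      _ ≤ M * (p : ℝ) ^ (-(ε / 2)) := by gcongr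
  have hKge : (M : ℝ) * (p : ℝ) ^ (-(ε / 2)) / 2 ≤ K := by
    have h3 := Nat.lt_floor_add_one ((M : ℝ) * (p : ℝ) ^ (-(ε / 2)))
    rw [← hK] at h3
    have h4 : 1 ≤ K := Nat.le_floor (by rw [Nat.cast_one]; exact hy1)
    have h5 : (1 : ℝ) ≤ K := by exact_mod_cast h4
    linarith
  obtain ⟨x, hx, hx2⟩ := h p ((le_max_left _ _).trans hp) (gp c θ M) (gp 1 θ K) F hF hlin
    (by
      rw [card_gp hc hM, card_gp one_ne_zero (hKM.trans hM)]
      calc (p : ℝ) ^ (1 + ε / 2) ≤ (p : ℝ) ^ (1 + ε / 2) * ((p : ℝ) ^ ε / 2) := by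
            apply le_mul_of_one_le_right (by positivity)
            linarith
        _ = (p : ℝ) ^ (1 / 2 + ε) * ((p : ℝ) ^ (1 / 2 + ε) * (p : ℝ) ^ (-(ε / 2)) / 2) := by
            have e1 : (p : ℝ) ^ (1 / 2 + ε) * ((p : ℝ) ^ (1 / 2 + ε) * (p : ℝ) ^ (-(ε / 2)) / 2) =
                ((p : ℝ) ^ (1 / 2 + ε) * ((p : ℝ) ^ (1 / 2 + ε) * (p : ℝ) ^ (-(ε / 2)))) / 2 := by
              ring
            rw [e1, ← Real.rpow_add hp0, ← Real.rpow_add hp0]
            have e2 : (p : ℝ) ^ (1 + ε / 2) * ((p : ℝ) ^ ε / 2) =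
                ((p : ℝ) ^ (1 + ε / 2) * (p : ℝ) ^ ε) / 2 := by ring
            rw [e2, ← Real.rpow_add hp0]
            congr 2
            ring
        _ ≤ M * K := by
            refine mul_le_mul hMp ?_ (by positivity) (Nat.cast_nonneg _)
            refine le_trans ?_ hKge
            gcongr)
    (by
      rw [card_gp hc hM, card_gp one_ne_zero (hKM.trans hM)]
      exact hKM)
    (by
      intro b hb
      unfold gp at hb
      obtain ⟨i, hi, rfl⟩ := mem_image.1 hb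
      rw [mem_range] at hi
      refine ⟨by rw [one_mul]; exact pow_ne_zero _ hθ, ?_⟩
      have h3 := gp_sdiff c θ M i
      rw [card_gp hc hM]
      calc ((gp c θ M \ (gp c θ M).image (fun x => 1 * θ ^ i * x)).card : ℝ) ≤ i := by
            have : (fun x : ZMod p => 1 * θ ^ i * x) = fun x => θ ^ i * x := by
              funext x
              rw [one_mul]
            rw [this]
            exact_mod_cast h3
        _ ≤ K := by exact_mod_cast hi.le
        _ ≤ (p : ℝ) ^ (-(ε / 2)) * M := by rw [mul_comm]; exact hKle)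
  unfold gp at hx
  obtain ⟨l, hl, rfl⟩ := mem_image.1 hx
  exact ⟨l, mem_range.1 hl, hx2⟩

end Pool.Agent.X67.GP
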