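import Pool.Agent.X164.MP.CritP
import Pool.Agent.X164.MP.Scale
import Pool.Agent.X164.MP.Bil
import Pool.Agent.Y943.Fu.Sum

set_option autoImplicit false

/-!
# Exponential sums over sets with many multiplicative almost periods, and record gaps
-/

namespace Pool.Agent.X67.GP

open Finset Polynomial Filter
open Pool.Agent.X164.MP
open Pool.Agent.H256R2.SC (ff)

variable {p : ℕ} [Fact p.Prime]

theorem norm_sum_psi (S : Finset (ZMod p)) (f : ZMod p → ZMod p) :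
    ‖∑ x ∈ S, (ZMod.stdAddChar (f x) : ℂ)‖ ≤ S.card := by
  refine (norm_sum_le _ _).trans ?_
  rw [Finset.sum_congr rfl fun x _ => norm_psi (f x), Finset.sum_const, nsmul_eq_mul, mul_one]

/-- replacing `x` by `b x` -/
theorem shift_one (G : (ZMod p)[X]) (S : Finset (ZMod p)) {b : ZMod p} (hb : b ≠ 0) {E : ℝ}
    (hE : ((S \ S.image (fun x => b * x)).card : ℝ) ≤ E) :
    ‖∑ x ∈ S, (ZMod.stdAddChar (G.eval x) : ℂ) -
      ∑ x ∈ S, (ZMod.stdAddChar (G.eval (x * b)) : ℂ)‖ ≤ 2 * E := by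
  classical
  set S' := S.image (fun x => b * x) with hS'
  have hinj : Function.Injective (fun x : ZMod p => b * x) := mul_right_injective₀ hb
  have h1 : ∑ x ∈ S, (ZMod.stdAddChar (G.eval (x * b)) : ℂ) =
      ∑ y ∈ S', (ZMod.stdAddChar (G.eval y) : ℂ) := by
    rw [hS', Finset.sum_image (fun x _ y _ h => hinj h)]
    exact Finset.sum_congr rfl fun x _ => by rw [mul_comm]
  have hcard : S'.card = S.card := Finset.card_image_of_injective _ hinj
  have h2 : (S' \ S).card = (S \ S').card := Finset.card_sdiff_comm hcard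
  rw [h1, ← Finset.sum_sdiff_sub_sum_sdiff]
  refine (norm_sub_le _ _).trans ?_
  have h3 := norm_sum_psi (S \ S') (fun x => G.eval x)
  have h4 := norm_sum_psi (S' \ S) (fun x => G.eval x)
  rw [h2] at h4
  linarith

/-- **sums over sets with almost periods** -/
theorem almost_inv {k : ℕ} (hkp : k < p) {ε : ℝ} (hε : 0 < ε)
    (hk2 : (2 : ℝ) * k ≤ (p : ℝ) ^ (ε / 4)) (h3 : (3 : ℝ) ≤ (p : ℝ) ^ (ε / 16))
    (G : (ZMod p)[X]) (hG1 : 1 ≤ G.natDegree) (hGk : G.natDegree ≤ k) (S B : Finset (ZMod p))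
    (hSB : (p : ℝ) ^ (1 + ε) ≤ S.card * B.card) (hle : B.card ≤ S.card)
    (hB : ∀ b ∈ B, b ≠ 0 ∧
      ((S \ S.image (fun x => b * x)).card : ℝ) ≤ (p : ℝ) ^ (-ε) * S.card) :
    ‖∑ x ∈ S, (ZMod.stdAddChar (G.eval x) : ℂ)‖ ≤ S.card * (p : ℝ) ^ (-(ε / 16)) := by
  classical
  have hpp : p.Prime := Fact.out
  have hp0 : (0 : ℝ) < p := by exact_mod_cast hpp.pos
  have hp1 : (1 : ℝ) ≤ p := by exact_mod_cast hpp.one_lt.le
  have hSB0 : (0 : ℝ) < S.card * B.card := lt_of_lt_of_le (by positivity) hSB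
  have hS0 : (0 : ℝ) < S.card := by
    rcases (Nat.cast_nonneg (α := ℝ) S.card).eq_or_lt with h0 | h0
    · rw [← h0, zero_mul] at hSB0
      exact absurd hSB0 (lt_irrefl _)
    · exact h0
  have hB0 : (0 : ℝ) < B.card := by
    rcases (Nat.cast_nonneg (α := ℝ) B.card).eq_or_lt with h0 | h0
    · rw [← h0, mul_zero] at hSB0
      exact absurd hSB0 (lt_irrefl _)
    · exact h0
  set W : ℂ := ∑ x ∈ S, (ZMod.stdAddChar (G.eval x) : ℂ) with hW
  have h1 : ‖(B.card : ℂ) * W - ∑ x ∈ S, ∑ b ∈ B, (ZMod.stdAddChar (G.eval (x * b)) : ℂ)‖ ≤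
      B.card * (2 * ((p : ℝ) ^ (-ε) * S.card)) := by
    have h2 : (B.card : ℂ) * W - ∑ x ∈ S, ∑ b ∈ B, (ZMod.stdAddChar (G.eval (x * b)) : ℂ) =
        ∑ b ∈ B, (W - ∑ x ∈ S, (ZMod.stdAddChar (G.eval (x * b)) : ℂ)) := by
      rw [Finset.sum_comm, Finset.sum_sub_distrib, Finset.sum_const, nsmul_eq_mul]
    rw [h2]
    refine (norm_sum_le _ _).trans ((Finset.sum_le_sum fun b hb =>
      shift_one G S (hB b hb).1 (hB b hb).2).trans (le_of_eq ?_))
    rw [Finset.sum_const, nsmul_eq_mul]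
  have h2 := bilin_saving hkp hε hk2 G hG1 hGk S B hSB hle
  have h4 : (B.card : ℝ) * ‖W‖ ≤ B.card * (2 * ((p : ℝ) ^ (-ε) * S.card)) +
      (S.card * B.card : ℝ) * (p : ℝ) ^ (-(ε / 8)) := by
    have h5 : (B.card : ℝ) * ‖W‖ = ‖(B.card : ℂ) * W‖ := by
      rw [norm_mul, Complex.norm_natCast]
    rw [h5]
    calc ‖(B.card : ℂ) * W‖ = ‖((B.card : ℂ) * W -
          ∑ x ∈ S, ∑ b ∈ B, (ZMod.stdAddChar (G.eval (x * b)) : ℂ)) +
          ∑ x ∈ S, ∑ b ∈ B, (ZMod.stdAddChar (G.eval (x * b)) : ℂ)‖ := by rw [sub_add_cancel]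
      _ ≤ _ := (norm_add_le _ _).trans (add_le_add h1 h2)
  have h5 : ‖W‖ ≤ 2 * ((p : ℝ) ^ (-ε) * S.card) + S.card * (p : ℝ) ^ (-(ε / 8)) := by
    have : (B.card : ℝ) * ‖W‖ ≤ B.card *
        (2 * ((p : ℝ) ^ (-ε) * S.card) + S.card * (p : ℝ) ^ (-(ε / 8))) := by
      linarith
    exact le_of_mul_le_mul_left this hB0
  have h6 : (p : ℝ) ^ (-ε) ≤ (p : ℝ) ^ (-(ε / 8)) :=
    Real.rpow_le_rpow_of_exponent_le hp1 (by linarith)
  have h7 : 3 * (p : ℝ) ^ (-(ε / 8)) ≤ (p : ℝ) ^ (-(ε / 16)) := by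
    calc 3 * (p : ℝ) ^ (-(ε / 8)) ≤ (p : ℝ) ^ (ε / 16) * (p : ℝ) ^ (-(ε / 8)) :=
          mul_le_mul_of_nonneg_right h3 (by positivity)
      _ = (p : ℝ) ^ (-(ε / 16)) := by
          rw [← Real.rpow_add hp0]
          congr 1
          ring
  calc ‖W‖ ≤ 2 * ((p : ℝ) ^ (-ε) * S.card) + S.card * (p : ℝ) ^ (-(ε / 8)) := h5
    _ ≤ 2 * ((p : ℝ) ^ (-(ε / 8)) * S.card) + S.card * (p : ℝ) ^ (-(ε / 8)) := by gcongr
    _ = S.card * (3 * (p : ℝ) ^ (-(ε / 8))) := by ring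
    _ ≤ S.card * (p : ℝ) ^ (-(ε / 16)) := mul_le_mul_of_nonneg_left h7 hS0.le

end Pool.Agent.X67.GP

namespace Pool.Agent.X67.GP

open Finset Polynomial Filter
open Pool.Agent.X164.MP
open Pool.Agent.H256R2.SC (ff)

/-- **record gaps around polynomial values at a point of a set with almost periods** -/
theorem almost_inv_gaps (r k : ℕ) (hr : 1 ≤ r) (ε : ℝ) (hε : 0 < ε) : ∃ κ : ℝ, 0 < κ ∧ ∃ p₀ : ℕ,
    ∀ (p : ℕ) [Fact p.Prime], p₀ ≤ p → ∀ (S B : Finset (ZMod p)) (F : Fin r → (ZMod p)[X]),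
      (∀ j, (F j).natDegree ≤ k) →
      (∀ h : Fin r → ZMod p, h ≠ 0 → 1 ≤ (∑ j, C (h j) * F j).natDegree) →
      (p : ℝ) ^ (1 + ε) ≤ S.card * B.card → B.card ≤ S.card →
      (∀ b ∈ B, b ≠ 0 ∧
        ((S \ S.image (fun x => b * x)).card : ℝ) ≤ (p : ℝ) ^ (-ε) * S.card) →
      ∃ x ∈ S, ∀ j, ∀ q : ℕ, q.Prime → κ * ff p < |(q : ℝ) - (((F j).eval x).val : ℝ)| := by
  obtain ⟨κ, hκ, p₀, h⟩ := critP r hr (ε / 16) (by positivity)
  have ev : ∀ᶠ p : ℕ in atTop, (2 : ℝ) * k ≤ (p : ℝ) ^ (ε / 4) ∧ (3 : ℝ) ≤ (p : ℝ) ^ (ε / 16) :=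
    (((tendsto_rpow_atTop (by positivity : 0 < ε / 4)).comp
      tendsto_natCast_atTop_atTop).eventually_ge_atTop _).and
    (((tendsto_rpow_atTop (by positivity : 0 < ε / 16)).comp
      tendsto_natCast_atTop_atTop).eventually_ge_atTop _)
  obtain ⟨p₁, hp₁⟩ := eventually_atTop.1 ev
  refine ⟨κ, hκ, max (max p₀ p₁) (k + 1), ?_⟩
  intro p _ hp S B F hF hlin hSB hle hB
  have hpp : p.Prime := Fact.out
  have hp0 : (0 : ℝ) < p := by exact_mod_cast hpp.pos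
  obtain ⟨e1, e2⟩ := hp₁ p ((le_max_right _ _).trans ((le_max_left _ _).trans hp))
  have hkp : k < p := (le_max_right _ _).trans hp
  have hne : S.Nonempty := by
    rw [Finset.nonempty_iff_ne_empty]
    rintro rfl
    rw [Finset.card_empty, Nat.cast_zero, zero_mul] at hSB
    exact absurd hSB (not_le.2 (by positivity))
  refine h p ((le_max_left _ _).trans ((le_max_left _ _).trans hp)) (ZMod p) S
    (fun x j => (F j).eval x) hne ?_
  intro c hc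
  have hG : ∀ x : ZMod p, ∑ j, c j * (F j).eval x = (∑ j, C (c j) * F j).eval x := by
    intro x
    rw [eval_finset_sum]
    exact Finset.sum_congr rfl fun j _ => by rw [eval_mul, eval_C]
  simp only [hG]
  refine almost_inv hkp hε e1 e2 _ (hlin c hc) ?_ S B hSB hle hB
  refine natDegree_sum_le_of_forall_le _ _ fun j _ => ?_
  exact (natDegree_C_mul_le _ _).trans (hF j)

end Pool.Agent.X67.GP
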