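import Pool.Agent.X67.GP.Core

set_option autoImplicit false

/-!
# Exponential sums over subgroups with at least `p ^ (3/8 + ε)` elements, and record gaps
-/

namespace Pool.Agent.X67.GP

open Finset Polynomial Filter
open Pool.Agent.X164.MP
open Pool.Agent.Y943.Fu
open Pool.Agent.H256R2.SC (ff)

variable {p : ℕ} [Fact p.Prime]

/-- `T |S(a)|² ≤ Σ r(z) |S(a z)|` -/
theorem step1 {g : ZMod p} (hg0 : g ≠ 0) (hg : 1 ≤ orderOf g) (a : ZMod p) :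
    (orderOf g : ℝ) * ‖∑ x ∈ HH g, ZMod.stdAddChar (N := p) (a * x)‖ ^ 2 ≤
      ∑ z, rp g z * ‖∑ x ∈ HH g, ZMod.stdAddChar (N := p) (a * z * x)‖ := by
  have h1 : ∀ j ∈ range (orderOf g),
      ((‖∑ x ∈ HH g, ZMod.stdAddChar (N := p) (a * x)‖ ^ 2 : ℝ) : ℂ) =
        ∑ z, (rp g z : ℂ) * ZMod.stdAddChar (a * g ^ j * z) := by
    intro j _
    rw [← norm_sq_eq, sum_shift_pow hg0 hg a j]
  have h2 : (((orderOf g : ℝ) * ‖∑ x ∈ HH g, ZMod.stdAddChar (N := p) (a * x)‖ ^ 2 : ℝ) : ℂ) =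
      ∑ z, (rp g z : ℂ) * ∑ x ∈ HH g, ZMod.stdAddChar (a * z * x) := by
    have h3 : (((orderOf g : ℝ) * ‖∑ x ∈ HH g, ZMod.stdAddChar (N := p) (a * x)‖ ^ 2 : ℝ) : ℂ) =
        ∑ j ∈ range (orderOf g),
          ((‖∑ x ∈ HH g, ZMod.stdAddChar (N := p) (a * x)‖ ^ 2 : ℝ) : ℂ) := by
      rw [sum_const, card_range, nsmul_eq_mul]
      push_cast
      rfl
    rw [h3, sum_congr rfl h1, sum_comm]
    refine sum_congr rfl fun z _ => ?_
    rw [← mul_sum, sum_HH]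
    congr 1
    refine sum_congr rfl fun j _ => ?_
    congr 1
    ring
  have h4 : (orderOf g : ℝ) * ‖∑ x ∈ HH g, ZMod.stdAddChar (N := p) (a * x)‖ ^ 2 =
      ‖∑ z, (rp g z : ℂ) * ∑ x ∈ HH g, ZMod.stdAddChar (N := p) (a * z * x)‖ := by
    rw [← h2, Complex.norm_real, Real.norm_eq_abs, abs_of_nonneg (by positivity)]
  rw [h4]
  refine (norm_sum_le _ _).trans (le_of_eq (sum_congr rfl fun z _ => ?_))
  rw [norm_mul, Complex.norm_real, Real.norm_eq_abs, abs_of_nonneg (rp_nonneg g z)]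

/-- `|S(a)|⁸ ≤ p E²` -/
theorem eighth {g : ZMod p} (hg0 : g ≠ 0) (hg : 1 ≤ orderOf g) {a : ZMod p} (ha : a ≠ 0) :
    ‖∑ x ∈ HH g, ZMod.stdAddChar (N := p) (a * x)‖ ^ 8 ≤ p * (∑ z, rp g z ^ 2) ^ 2 := by
  set T : ℝ := ((orderOf g : ℕ) : ℝ) with hT
  have hT1 : (1 : ℝ) ≤ T := by
    rw [hT]
    exact_mod_cast hg
  have hT0 : 0 < T := by linarith
  set s := ‖∑ x ∈ HH g, ZMod.stdAddChar (N := p) (a * x)‖ with hs
  have hs0 : 0 ≤ s := norm_nonneg _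
  set N : ZMod p → ℝ := fun z => ‖∑ x ∈ HH g, ZMod.stdAddChar (N := p) (a * z * x)‖ with hN
  have hN0 : ∀ z, 0 ≤ N z := fun z => norm_nonneg _
  have h1 : T * s ^ 2 ≤ ∑ z, rp g z * N z := step1 hg0 hg a
  have h2 : (∑ z, rp g z * N z) ^ 2 ≤ T ^ 2 * ∑ z, rp g z * N z ^ 2 := by
    have h3 := Finset.sum_sq_le_sum_mul_sum_of_sq_le_mul (univ : Finset (ZMod p))
      (r := fun z => rp g z * N z) (f := fun z => rp g z) (g := fun z => rp g z * N z ^ 2)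
      (fun z _ => rp_nonneg g z) (fun z _ => mul_nonneg (rp_nonneg g z) (by positivity))
      (fun z _ => le_of_eq (by ring))
    rw [sum_rp, ← hT] at h3
    exact h3
  have h4 : (∑ z, rp g z * N z ^ 2) ^ 2 ≤ (∑ z, rp g z ^ 2) * ∑ z, N z ^ 4 := by
    have h3 := Finset.sum_sq_le_sum_mul_sum_of_sq_le_mul (univ : Finset (ZMod p))
      (r := fun z => rp g z * N z ^ 2) (f := fun z => rp g z ^ 2) (g := fun z => N z ^ 4)
      (fun z _ => by positivity) (fun z _ => by positivity)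
      (fun z _ => le_of_eq (by ring))
    exact h3
  have h5 : ∑ z, N z ^ 4 = p * ∑ z, rp g z ^ 2 := by
    rw [← fourth g]
    exact Fintype.sum_equiv (Equiv.mulLeft₀ a ha) _ _ fun z => rfl
  rw [h5] at h4
  set E := ∑ z, rp g z ^ 2 with hE
  have hsum0 : 0 ≤ ∑ z, rp g z * N z ^ 2 :=
    sum_nonneg fun z _ => mul_nonneg (rp_nonneg g z) (by positivity)
  have h6 : T ^ 4 * s ^ 8 ≤ T ^ 4 * (p * E ^ 2) := by
    calc T ^ 4 * s ^ 8 = ((T * s ^ 2) ^ 2) ^ 2 := by ring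
      _ ≤ ((∑ z, rp g z * N z) ^ 2) ^ 2 := by gcongr
      _ ≤ (T ^ 2 * ∑ z, rp g z * N z ^ 2) ^ 2 := by gcongr
      _ = T ^ 4 * (∑ z, rp g z * N z ^ 2) ^ 2 := by ring
      _ ≤ T ^ 4 * (E * (p * E)) := by gcongr
      _ = T ^ 4 * (p * E ^ 2) := by ring
  exact le_of_mul_le_mul_left h6 (by positivity)

/-- **the saving for subgroups with at least `p ^ (3/8 + ε)` elements** -/
theorem sub_saving {ε : ℝ} (hε : 0 < ε) (hε1 : ε ≤ 1) (h2 : (2 : ℝ) ≤ (p : ℝ) ^ (ε / 12))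
    {g : ZMod p} (hg0 : g ≠ 0) (hg : 1 ≤ orderOf g)
    (hT : (p : ℝ) ^ (3 / 8 + ε) ≤ orderOf g) {a : ZMod p} (ha : a ≠ 0) :
    ‖∑ l ∈ range (orderOf g), ZMod.stdAddChar (N := p) (a * g ^ l)‖ ≤
      orderOf g * (p : ℝ) ^ (-(ε / 4)) := by
  have hpp : p.Prime := Fact.out
  have hp0 : (0 : ℝ) < p := by exact_mod_cast hpp.pos
  have hp1 : (1 : ℝ) ≤ p := by exact_mod_cast hpp.one_lt.le
  set T : ℝ := ((orderOf g : ℕ) : ℝ) with hTdef
  have hT1 : (1 : ℝ) ≤ T := by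
    rw [hTdef]
    exact_mod_cast hg
  have hT0 : 0 < T := by linarith
  rw [← sum_HH]
  set s := ‖∑ x ∈ HH g, ZMod.stdAddChar (N := p) (a * x)‖ with hs
  have hs0 : 0 ≤ s := norm_nonneg _
  by_cases hcase : orderOf g ^ 4 < p ^ 3
  · have h1 := eighth hg0 hg ha
    rw [← hs] at h1
    have h3 := energy_le hg hcase
    rw [← hTdef] at h3
    have h4 : s ^ 8 ≤ p * (8 * (T ^ (2 / 3 : ℝ) * T ^ 2)) ^ 2 := by
      refine h1.trans ?_
      have : (0 : ℝ) ≤ ∑ z, rp g z ^ 2 := sum_nonneg fun z _ => by positivity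
      gcongr
    have h5 : (p : ℝ) ^ (1 + 8 / 3 * ε) ≤ T ^ (8 / 3 : ℝ) := by
      calc (p : ℝ) ^ (1 + 8 / 3 * ε) = ((p : ℝ) ^ (3 / 8 + ε)) ^ (8 / 3 : ℝ) := by
            rw [← Real.rpow_mul hp0.le]
            congr 1
            ring
        _ ≤ T ^ (8 / 3 : ℝ) := Real.rpow_le_rpow (by positivity) hT (by norm_num)
    have h6 : (T ^ (2 / 3 : ℝ) * T ^ 2) ^ 2 * T ^ (8 / 3 : ℝ) = T ^ 8 := by
      have e1 : T ^ (2 / 3 : ℝ) * T ^ 2 = T ^ (8 / 3 : ℝ) := by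
        rw [← Real.rpow_natCast T 2, ← Real.rpow_add hT0]
        norm_num
      rw [e1, ← Real.rpow_natCast (T ^ (8 / 3 : ℝ)) 2, ← Real.rpow_mul hT0.le,
        ← Real.rpow_add hT0, ← Real.rpow_natCast T 8]
      norm_num
    have h7 : (64 : ℝ) ≤ ((p : ℝ) ^ (ε / 12)) ^ 8 := by
      calc (64 : ℝ) ≤ 2 ^ 8 := by norm_num
        _ ≤ ((p : ℝ) ^ (ε / 12)) ^ 8 := by gcongr
    have h8 : ((p : ℝ) ^ (ε / 12)) ^ 8 = (p : ℝ) ^ (8 / 3 * ε) * (p : ℝ) ^ (-(2 * ε)) := by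
      rw [← Real.rpow_natCast ((p : ℝ) ^ (ε / 12)) 8, ← Real.rpow_mul hp0.le,
        ← Real.rpow_add hp0]
      congr 1
      push_cast
      ring
    have h9 : (T * (p : ℝ) ^ (-(ε / 4))) ^ 8 = T ^ 8 * (p : ℝ) ^ (-(2 * ε)) := by
      rw [mul_pow, ← Real.rpow_natCast ((p : ℝ) ^ (-(ε / 4))) 8, ← Real.rpow_mul hp0.le]
      congr 2
      push_cast
      ring
    have h10 : s ^ 8 ≤ (T * (p : ℝ) ^ (-(ε / 4))) ^ 8 := by
      have hpos : 0 < (p : ℝ) ^ (8 / 3 * ε) := by positivity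
      have h11 : (p : ℝ) * (p : ℝ) ^ (8 / 3 * ε) ≤ T ^ (8 / 3 : ℝ) := by
        rw [← Real.rpow_one_add' hp0.le (by positivity)]
        exact h5
      have h12 : s ^ 8 * (p : ℝ) ^ (8 / 3 * ε) ≤
          (T * (p : ℝ) ^ (-(ε / 4))) ^ 8 * (p : ℝ) ^ (8 / 3 * ε) := by
        calc s ^ 8 * (p : ℝ) ^ (8 / 3 * ε) ≤
              (p * (8 * (T ^ (2 / 3 : ℝ) * T ^ 2)) ^ 2) * (p : ℝ) ^ (8 / 3 * ε) := by gcongr
          _ = 64 * ((T ^ (2 / 3 : ℝ) * T ^ 2) ^ 2 * (p * (p : ℝ) ^ (8 / 3 * ε))) := by ring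
          _ ≤ 64 * ((T ^ (2 / 3 : ℝ) * T ^ 2) ^ 2 * T ^ (8 / 3 : ℝ)) := by gcongr
          _ = 64 * T ^ 8 := by rw [h6]
          _ ≤ ((p : ℝ) ^ (ε / 12)) ^ 8 * T ^ 8 := by gcongr
          _ = (T * (p : ℝ) ^ (-(ε / 4))) ^ 8 * (p : ℝ) ^ (8 / 3 * ε) := by rw [h8, h9]; ring
      exact le_of_mul_le_mul_right h12 hpos
    exact (pow_le_pow_iff_left₀ hs0 (by positivity) (by norm_num)).1 h10
  · have h1 := order_mul_le hg0 hg ha 2
    rw [second, ← hs, ← hTdef] at h1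
    have h3 : s ^ 2 ≤ p := by
      have : T * s ^ 2 ≤ T * p := by linarith
      exact le_of_mul_le_mul_left this hT0
    have h4 : (p : ℝ) ^ 3 ≤ T ^ 4 := by
      push Not at hcase
      rw [hTdef]
      exact_mod_cast hcase
    have h5 : s ^ 4 ≤ (T * (p : ℝ) ^ (-(ε / 4))) ^ 4 := by
      have h6 : (T * (p : ℝ) ^ (-(ε / 4))) ^ 4 = T ^ 4 * (p : ℝ) ^ (-ε) := by
        rw [mul_pow, ← Real.rpow_natCast ((p : ℝ) ^ (-(ε / 4))) 4, ← Real.rpow_mul hp0.le]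
        congr 2
        push_cast
        ring
      rw [h6]
      calc s ^ 4 = (s ^ 2) ^ 2 := by ring
        _ ≤ (p : ℝ) ^ 2 := by gcongr
        _ = (p : ℝ) ^ 3 * (p : ℝ) ^ (-1 : ℝ) := by
            rw [Real.rpow_neg_one]
            field_simp
        _ ≤ (p : ℝ) ^ 3 * (p : ℝ) ^ (-ε) := by
            gcongr
        _ ≤ T ^ 4 * (p : ℝ) ^ (-ε) := by gcongr
    exact (pow_le_pow_iff_left₀ hs0 (by positivity) (by norm_num)).1 h5

end Pool.Agent.X67.GP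

namespace Pool.Agent.X67.GP

open Finset Polynomial Filter
open Pool.Agent.X164.MP
open Pool.Agent.Y943.Fu
open Pool.Agent.H256R2.SC (ff)

/-- **record gaps around a point of an affine image of a subgroup** -/
theorem sub_gaps (ε : ℝ) (hε : 0 < ε) : ∃ κ : ℝ, 0 < κ ∧ ∃ p₀ : ℕ,
    ∀ (p : ℕ) [Fact p.Prime], p₀ ≤ p → ∀ θ c a : ZMod p, θ ≠ 0 → c ≠ 0 →
      (p : ℝ) ^ (3 / 8 + ε) ≤ orderOf θ →
      ∃ l : ℕ, l < orderOf θ ∧ ∀ q : ℕ, q.Prime →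
        κ * ff p < |(q : ℝ) - ((a + c * θ ^ l).val : ℝ)| := by
  set δ : ℝ := min ε 1 with hδ
  have hδ0 : 0 < δ := lt_min hε one_pos
  have hδε : δ ≤ ε := min_le_left _ _
  have hδ1 : δ ≤ 1 := min_le_right _ _
  obtain ⟨κ, hκ, p₀, h⟩ := critP 1 le_rfl (δ / 4) (by positivity)
  have ev : ∀ᶠ p : ℕ in atTop, (2 : ℝ) ≤ (p : ℝ) ^ (δ / 12) :=
    ((tendsto_rpow_atTop (by positivity : 0 < δ / 12)).comp
      tendsto_natCast_atTop_atTop).eventually_ge_atTop _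
  obtain ⟨p₁, hp₁⟩ := eventually_atTop.1 ev
  refine ⟨κ, hκ, max p₀ p₁, ?_⟩
  intro p _ hp θ c a hθ hc hT
  have hpp : p.Prime := Fact.out
  have hp0 : (0 : ℝ) < p := by exact_mod_cast hpp.pos
  have hp1 : (1 : ℝ) ≤ p := by exact_mod_cast hpp.one_lt.le
  have hord : 1 ≤ orderOf θ := by
    have h1 : (0 : ℝ) < orderOf θ := lt_of_lt_of_le (by positivity) hT
    exact_mod_cast h1
  have hT' : (p : ℝ) ^ (3 / 8 + δ) ≤ orderOf θ :=
    (Real.rpow_le_rpow_of_exponent_le hp1 (by linarith)).trans hT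
  obtain ⟨l, hl, hl2⟩ := h p ((le_max_left _ _).trans hp) ℕ (range (orderOf θ))
    (fun l _ => a + c * θ ^ l) (by rw [nonempty_range_iff]; omega) (by
      intro k hk
      have hk0 : k 0 ≠ 0 := by
        intro h0
        apply hk
        funext j
        rw [Subsingleton.elim j 0, h0]
        rfl
      have e : ∀ l : ℕ, (ZMod.stdAddChar (∑ j : Fin 1, k j * (a + c * θ ^ l)) : ℂ) =
          ZMod.stdAddChar (k 0 * a) * ZMod.stdAddChar (k 0 * c * θ ^ l) := by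
        intro l
        rw [← AddChar.map_add_eq_mul]
        congr 1
        rw [Fin.sum_univ_one]
        ring
      simp only [e]
      rw [← mul_sum, norm_mul, norm_psi, one_mul, card_range]
      exact sub_saving hδ0 hδ1 (hp₁ p ((le_max_right _ _).trans hp)) hθ hord hT'
        (mul_ne_zero hk0 hc))
  exact ⟨l, mem_range.1 hl, fun q hq => hl2 0 q hq⟩

end Pool.Agent.X67.GP
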